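import Mathlib
import Pool.Agent.helper12.FI.Defs
import Pool.Agent.helper35.DR.SpecC

/-!
# Project fi (MP_baa4d7_al), block F: definitions

`cjS g P = g P g⁻¹`, `cjF g ψ (x) = ψ (g⁻¹ x g)`. `NCh p L P C`: `C` is a normal chain of `p`-subgroups of `L` with smallest
term `P`. `Loc`: the local data which block F takes from the other blocks. `BlkD`: the members of `Blk M χ N` of
defect `d`. `OverE K N φ ψ e` (DR): the restriction of `φ` to `K` is `e` times the sum of the distinct `N`-conjugates of `ψ`.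
-/

set_option autoImplicit false

namespace Pool.Agent.FI

open Pool.Agent.helper58.DC Pool.Agent.DI Pool.Agent.GR Pool.Agent.OB Pool.Agent.DR

section

variable {G : Type} [Group G]

/-- the conjugate subgroup `g P g⁻¹` -/
abbrev cjS (g : G) (P : Subgroup G) : Subgroup G := P.map (MulAut.conj g).toMonoidHom

/-- the conjugate function `x ↦ ψ (g⁻¹ x g)` -/
abbrev cjF (g : G) (ψ : G → ℂ) : G → ℂ := funMap (MulAut.conj g) ψ

theorem mem_cjS {g x : G} {P : Subgroup G} : x ∈ cjS g P ↔ g⁻¹ * x * g ∈ P := by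
  constructor
  · rintro ⟨y, hy, rfl⟩
    have h : g⁻¹ * ((MulAut.conj g).toMonoidHom y) * g = y := by
      change g⁻¹ * (g * y * g⁻¹) * g = y
      group
    rw [h]
    exact hy
  · intro h
    refine ⟨g⁻¹ * x * g, h, ?_⟩
    change g * (g⁻¹ * x * g) * g⁻¹ = x
    group

theorem cjF_apply (g : G) (ψ : G → ℂ) (x : G) : cjF g ψ x = ψ (g⁻¹ * x * g) := by
  unfold cjF funMap
  rw [MulAut.conj_inv_apply]

/-- `C` is a normal chain of `p`-subgroups of `L` with smallest term `P`: every term normalises the smaller ones. -/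
structure NCh (p : ℕ) (L P : Subgroup G) (C : Finset (Subgroup G)) : Prop where
  ch : PCh p L P C
  nm : ∀ Q ∈ C, ∀ R ∈ C, Q ≤ R → R ≤ nz Q

/-- The members of `Blk M χ N` of defect `d`. -/
def BlkD (p : ℕ) (M : Ideal (integralClosure ℤ ℂ)) (χ : G → ℂ) (N : Subgroup G) (d : ℤ) : Set (G → ℂ) :=
  {φ | φ ∈ Blk M χ N ∧ Defect p N φ d}

/-- The members of `IrrOn (Cz L y)` whose block induces to the block `b(θ)^L` of `L`. -/
def BlC (M : Ideal (integralClosure ℤ ℂ)) (L : Subgroup G) (θ : G → ℂ) (y : G) : Set (G → ℂ) :=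
  {ψ | ψ ∈ IrrOn (Cz L y) ∧ SB M L ψ θ}

/-- `S / K` is cyclic (`K` normal in `S`). -/
def CyS (K S : Subgroup G) : Prop := ∃ s ∈ S, ∀ x ∈ S, ∃ k : ℤ, s ^ k * x ∈ K

/-- What block F uses from the other blocks, without the property `Good`. -/
structure Lo0 (p : ℕ) (M : Ideal (integralClosure ℤ ℂ)) (D : Subgroup G) (x : G) (θ χ : G → ℂ) :
    Prop where
  rt : Rt p M D x θ χ
  free : Free M D θ
  nb : D ≠ ⊥
  cyc : CyS (cz D) (TT M D θ)
  bet : ¬ p ∣ (cz D).relIndex (TT M D θ)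
  con : ∀ Q : Subgroup G, IsPGroup p Q → ∀ ψ ∈ IrrOn (cz Q), Induces M ψ χ →
    ∃ g : G, cjS g Q ≤ D ∧ SB M (cz (cjS g Q)) θ (cjF g ψ)
  cnj : ∀ P ≤ D, ∀ ψ ∈ IrrOn (cz P), SB M (cz P) θ ψ → ∀ D₁ : Subgroup G, IsPGroup p D₁ →
    P ≤ D₁ → Nat.card D₁ = Nat.card D → ∀ θ₁ ∈ IrrOn (cz D₁), SB M (cz P) θ₁ ψ →
    ∃ l ∈ cz P, cjS l D₁ = D ∧ SB M (cz D) (cjF l θ₁) θ
  dfl : ∀ P ≤ D, ∀ ψ ∈ IrrOn (cz P), SB M (cz P) θ ψ → ∃ x' ∈ cz D, DefL p M (cz P) ψ D x'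
  eqr : ∀ P ≤ D, ∀ y ∈ cz P, PEl p y → ∀ z ∈ Cz (cz P) y,
    InM M (eS (cz P) (Bl M (cz P) θ) z - eS (Cz (cz P) y) (BlC M (cz P) θ y) z)

/-- What block F uses from the other blocks. -/
structure Loc (p : ℕ) (M : Ideal (integralClosure ℤ ℂ)) (D : Subgroup G) (x : G) (θ χ : G → ℂ) :
    Prop where
  lo : Lo0 p M D x θ χ
  good : ∀ P ≤ D, P ≠ ⊥ → Good p M D (cz P) θ

end

end Pool.Agent.FI
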