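import Mathlib
import Pool.Agent.helper58.FI.DefsC

/-!
# Project fi (MP_baa4d7_al), block F: chains

OUTPUT. `FFF` (the alternating sum for every `d`), and `FCY`, `HTZ`, `DOR` for block Q.

RULES. File `Pool/Agent/<seat>/FI/XXX.lean` with

  import Pool.Agent.helper58.FI.SpecC
  set_option autoImplicit false
  namespace Pool.Agent.FI
  open Pool.Agent.helper58.DC Pool.Agent.DI Pool.Agent.GR Pool.Agent.OB Pool.Agent.DR
  theorem XXX (hYYY : YYY_stmt) ... : XXX_stmt := ...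
  end Pool.Agent.FI

auxiliary lemmas prefixed `XXX_`, no sorry, no double quotes, no convert / congr!. Any other statement of this file, of
`helper83/GR/Spec` (`KEY CVF EXP SCH CCI IDM SFC EIN BR0 FCO PPT ZER ORB BCL CLA ..`), `helper81/DI/Spec{A,B,C}` (`A1 .. A14`,
`B0 .. B16`, `C1 .. C16`), `helper58/DC/Spec1` (`IF IM OM TI OI NM SN ..`), `helper35/DR/SpecC` (`CRE CUQ CCJ CFA CFB CFC ..`) and
`helper22/OB/SpecD` may be taken as a hypothesis (no circles), they are all proved.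

Notation: `nz cz cc cv PCh cSum rSum stF` (`helper81/DI/Defs`), `IntAt InM Small Setup` (`helper83/GR/Ari`), `PEl PReg Cz CF Sf eS
BC dl Blk` (`helper83/GR/Spec`), `OverE indf` (`helper35/DR/Defs`), `SB Bl TT DefL Rt Free Good ev mt dd` (`helper12/FI/Defs`),
`cjS cjF NCh BlkD BlC CyS Lo0 Loc` (`helper58/FI/DefsC`). `K.relIndex S = |S : S ⊓ K|`.
-/

set_option autoImplicit false

namespace Pool.Agent.FI

open Pool.Agent.helper58.DC Pool.Agent.DI Pool.Agent.GR Pool.Agent.OB Pool.Agent.DR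

/-! ## 1. Transport -/

/-- **FEQ** (medium; from IF, IM, NM of DC). Conjugation. All items are direct: `mem_cjS`, `cjF_apply` (`helper58/FI/DefsC`), `cc_funMap`
(`helper12/FI/Defs`); `χ ∈ Irr G` is a class function (IF, TI of DC), so `cjF g χ = χ`, and IM (last item). For `SB`: for
`z` with `CF (cjS g L) z` the function `x ↦ z (g * x * g⁻¹)` is in `CF L`, and by `cc_funMap` its `cc` are those of `z` at the
conjugate characters. For `Bl`: from the items on `IrrOn`, `SB`. `stF`: `cjF n ψ = ψ` iff `cjF (g n g⁻¹) (cjF g ψ) = cjF g ψ`. -/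
def FEQ_stmt : Prop :=
  ∀ (G : Type) [Group G] [Finite G] (M : Ideal (integralClosure ℤ ℂ)) (g h : G) (P Q L : Subgroup G)
    (η ψ χ : G → ℂ),
    (cjS g (cjS h P) = cjS (g * h) P ∧ cjF g (cjF h ψ) = cjF (g * h) ψ ∧ cjS (1 : G) P = P ∧
      cjF (1 : G) ψ = ψ) ∧
    (cz (cjS g P) = cjS g (cz P) ∧ nz (cjS g P) = cjS g (nz P) ∧ (cjS g P ≤ cjS g Q ↔ P ≤ Q) ∧
      (cjS g P = P ↔ g ∈ nz P) ∧ (cjS g P = ⊥ ↔ P = ⊥) ∧ Nat.card (cjS g P) = Nat.card P) ∧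
    (∀ y, cjS g (Cz L y) = Cz (cjS g L) (g * y * g⁻¹)) ∧
    (ψ ∈ IrrOn L ↔ cjF g ψ ∈ IrrOn (cjS g L)) ∧
    (SB M L η ψ ↔ SB M (cjS g L) (cjF g η) (cjF g ψ)) ∧
    (χ ∈ Irr G → cjF g χ = χ ∧ (Induces M (cjF g ψ) χ ↔ Induces M ψ χ)) ∧
    (ψ ∈ Bl M L η ↔ cjF g ψ ∈ Bl M (cjS g L) (cjF g η)) ∧
    stF (cjS g L) (cjF g ψ) = cjS g (stF L ψ) ∧
    (cjS g P).relIndex (cjS g Q) = P.relIndex Q

/-- **FSI** (short). Restriction of `SB`. Proof: (1) for `z` with `CF L z` the function `z' = z` on `L'`, `0` elsewhere, is in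
`CF L'`, and `cc η z = cc η z'` if `η` vanishes outside `L'`. (2) `omega η g = cc η z` for the indicator function `z` of
`conjugatesOf g ∩ L` if `η` vanishes outside `L`; `CF L z`, integral values. (3) C1: `Mcong` is symmetric and transitive
(`SB.symm`, `SB.trans`). -/
def FSI_stmt : Prop :=
  ∀ (p : ℕ) (M : Ideal (integralClosure ℤ ℂ)), Setup p M → ∀ (G : Type) [Group G] [Finite G]
    (L' L : Subgroup G) (η ψ : G → ℂ),
    (L' ≤ L → (∀ x, x ∉ L' → η x = 0) → (∀ x, x ∉ L' → ψ x = 0) → SB M L' η ψ → SB M L η ψ) ∧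
    ((∀ x, x ∉ L → η x = 0) → (∀ x, x ∉ L → ψ x = 0) → SB M L η ψ →
      ∀ χ : G → ℂ, (Induces M η χ ↔ Induces M ψ χ))

/-- **FBC** (short; from FSI). `Bl` and `BlC` are unions of blocks (`BC`): `SB.symm`, `SB.trans`; the condition in `BC.closed` is
`SB M H ψ ψ'`; for `BlC` use FSI (1) with `L' = Cz L y ≤ L`. -/
def FBC_stmt : Prop :=
  ∀ (p : ℕ) (M : Ideal (integralClosure ℤ ℂ)), Setup p M → ∀ (G : Type) [Group G] [Finite G]
    (L : Subgroup G) (θ : G → ℂ) (y : G),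
    BC M L (Bl M L θ) ∧ BC M (Cz L y) (BlC M L θ y) ∧ BC M (Cz L y) (Bl M (Cz L y) θ) ∧
      Bl M (Cz L y) θ ⊆ {ψ | (∀ x, x ∉ Cz L y → θ x = 0) → ψ ∈ BlC M L θ y}

/-! ## 2. Chains -/

/-- **FNR** (medium; compare the proof of A5 of DI, grep `theorem A5`). Recursion for normal chains by the second term. `C = {P}` or
`C = insert P C'` where `C'` is a normal chain with smallest term `P₁ > P`; all terms of `C'` normalise `P`, so they are
contained in `L ⊓ nz P`; `N ⊓ nrm (insert P C') = (N ⊓ nz P) ⊓ nrm C'`. -/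
def FNR_stmt : Prop :=
  ∀ (Γ : Type) [Group Γ] [Finite Γ] (p : ℕ) [Fact p.Prime] (L P N : Subgroup Γ)
    (g : Subgroup Γ → ℤ), IsPGroup p P → P ≤ L →
    ∑ᶠ C ∈ {C : Finset (Subgroup Γ) | NCh p L P C}, (-1) ^ (C.card + 1) * g (N ⊓ nrm C) =
      g (N ⊓ nz P) - ∑ᶠ P₁ ∈ {P₁ : Subgroup Γ | P < P₁ ∧ P₁ ≤ L ⊓ nz P ∧ IsPGroup p P₁},
        ∑ᶠ C ∈ {C : Finset (Subgroup Γ) | NCh p (L ⊓ nz P) P₁ C},
          (-1) ^ (C.card + 1) * g ((N ⊓ nz P) ⊓ nrm C)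

/-- **FNO** (short-medium; from FNR, A3, A5 of DI). All chains and normal chains. Proof: induction on `|Γ| - |P|` (for all `L`, `N`). By
A3 `cSum p L P N g = cSum p (L ⊓ nz P) P N g`, by A5 this is `g (N ⊓ nz P) - ∑_{P₁} cSum p (L ⊓ nz P) P₁ (N ⊓ nz P) g` over the
`p`-subgroups `P₁` with `P < P₁ ≤ L ⊓ nz P`; use the induction hypothesis and FNR. -/
def FNO_stmt : Prop :=
  ∀ (Γ : Type) [Group Γ] [Finite Γ] (p : ℕ) [Fact p.Prime] (L P N : Subgroup Γ)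
    (g : Subgroup Γ → ℤ), IsPGroup p P → P ≤ L → cSum p L P N g =
      ∑ᶠ C ∈ {C : Finset (Subgroup Γ) | NCh p L P C}, (-1) ^ (C.card + 1) * g (N ⊓ nrm C)

/-- **FMX** (short). The largest term of a normal chain (compare A13 of DI). `P` normalises every `Q ∈ C` (`Q ≤ P`); an element of
`cz P` centralises every term; `nrm C` is the infimum of the `nz Q`, `Q ∈ C`. -/
def FMX_stmt : Prop :=
  ∀ (Γ : Type) [Group Γ] [Finite Γ] (p : ℕ) (C : Finset (Subgroup Γ)), NCh p ⊤ ⊥ C →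
    C ≠ {⊥} → ∃ P ∈ C, P ≠ ⊥ ∧ IsPGroup p P ∧ (∀ Q ∈ C, Q ≤ P) ∧ P ≤ nrm C ∧ nrm C ≤ nz P ∧
      cz P ≤ nrm C

open Classical in
/-- **FTG** (short-medium; from A1 of DI or `Finset.sum_involution`). Toggle `D` on the chains of subgroups of `D` different from `{⊥}`
and `{⊥, D}`: `C ↦ insert D C` or `C.erase D`. `T ⊓ nrm (insert D C) = T ⊓ nrm C` because `T ≤ nz D`. The chain `{⊥, D}`
remains: its term is `(-1) ^ 3 * f (T ⊓ nrm {⊥, D}) = - f T`. (A1 is for the whole set with one function `t`: apply it to the set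
of the chains in question without `{⊥, D}`; erasing `D` from a chain with at least three terms, or inserting it in a chain with at
least two terms, never gives `{⊥}` or `{⊥, D}`.) -/
def FTG_stmt : Prop :=
  ∀ (Γ : Type) [Group Γ] [Finite Γ] (p : ℕ) [Fact p.Prime] (D T : Subgroup Γ), IsPGroup p D →
    D ≠ ⊥ → T ≤ nz D → ∀ f : Subgroup Γ → ℤ,
    ∑ᶠ C ∈ {C : Finset (Subgroup Γ) | PCh p D ⊥ C ∧ C ≠ {⊥}}, (-1) ^ (C.card + 1) * f (T ⊓ nrm C) =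
      - f T

/-- **FT0** (medium; from CLA of GR, A7, A8 of DI, NM, SN, IF, IM of DC, FNO). The alternating sum as a sum over all normal chains. Proof:
`kC (trivE G) p M χ d ⊤ C = (BlkD p M χ (nrm C) d).ncard` (every subgroup of `Unit` is `⊤`). This number is constant on classes of
chains (`ψ ↦ funMap (conj g) ψ`, NM, IF, IM; compare GCJ of GR, `Defect` depends on `Nat.card` and `ψ 1`). So by CLA
`|G| * altSum` is the sum over the radical chains of `(-1)^(|C|+1) * g (nrm C)` with `g N = |N| * (BlkD p M χ N d).ncard`; by A8 with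
`i = MonoidHom.id G` it is `rSum p ⊤ ⊤ g` (`cmap (MonoidHom.id G) C = C`, `range = ⊤`), by A7 `cSum p ⊤ ⊥ ⊤ g` and FNO. -/
def FT0_stmt : Prop :=
  ∀ (G : Type) [Group G] [Finite G] (p : ℕ) [Fact p.Prime] (M : Ideal (integralClosure ℤ ℂ)),
    IsOp p (⊤ : Subgroup G) ⊥ → ∀ χ ∈ Irr G, ∀ d : ℤ,
    (Nat.card G : ℤ) * altSum (trivE G) p M χ d ⊤ =
      ∑ᶠ C ∈ {C : Finset (Subgroup G) | NCh p ⊤ ⊥ C},
        (-1) ^ (C.card + 1) * ((Nat.card (nrm C) : ℤ) * (BlkD p M χ (nrm C) d).ncard)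

/-! ## 3. Clifford theory -/

/-- **FCE** (medium; from B9 of DI, CUQ of DR). Extensions, cyclic quotient. Proof: apply B9 of DI to the group `H = S` and its subgroup
`K.subgroupOf S` (`CycQ`: normal because `S ≤ nz K`; generator from `CyS`). Functions on `Γ` supported on `S` correspond to
functions on `S` (`IrrOn`; compare how B10 is deduced from B9, grep `theorem B10`). As `ψ` is invariant under `S`,
`OverP K S φ ψ` says `φ = ψ` on `K`, and `stF S ψ = S`: this is the count. If `φ = e ψ` on `K`: by B9 (1) `φ` is on `K` the sum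
of the distinct conjugates of some `ψ' ∈ IrrOn K`; comparing coefficients (CUQ) `e = 1`. -/
def FCE_stmt : Prop :=
  ∀ (Γ : Type) [Group Γ] [Finite Γ] (K S : Subgroup Γ), K ≤ S → S ≤ nz K → CyS K S →
    ∀ ψ ∈ IrrOn K, (∀ s ∈ S, cjF s ψ = ψ) →
    {φ : Γ → ℂ | φ ∈ IrrOn S ∧ ∀ x ∈ K, φ x = ψ x}.ncard * Nat.card K = Nat.card S ∧
    ∀ φ ∈ IrrOn S, ∀ e : ℕ, 0 < e → (∀ x ∈ K, φ x = e * ψ x) → e = 1

/-- **FCL** (short-medium; from FCE, CFB, CCJ of DR). Clifford theory with cyclic inertia factor. Proof: let `S = stF N ψ` (`K ≤ S`: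
`ψ` is a class function of `K`). By CFB `φ₀ ↦ indf N S φ₀` is a bijection from the `φ₀ ∈ IrrOn S` with `φ₀ = e ψ` on `K` for some
`e > 0` onto the set on the left side; by FCE `e = 1` and their number is `|S| / |K|`. The last item: CFB (3) and FCE give `e = 1`, and
CCJ (last item) `φ 1 * |S| = e * |N| * ψ 1`. -/
def FCL_stmt : Prop :=
  ∀ (Γ : Type) [Group Γ] [Finite Γ] (K N : Subgroup Γ), K ≤ N → N ≤ nz K → ∀ ψ ∈ IrrOn K,
    CyS K (stF N ψ) →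
    {φ : Γ → ℂ | φ ∈ IrrOn N ∧ ∃ e : ℕ, 0 < e ∧ OverE K N φ ψ e}.ncard * Nat.card K =
      Nat.card (stF N ψ) ∧
    ∀ φ ∈ IrrOn N, ∀ e : ℕ, 0 < e → OverE K N φ ψ e →
      φ 1 * Nat.card (stF N ψ) = Nat.card N * ψ 1

/-- **FCN** (medium; from FCL, CFA, CCJ of DR). Sum over the characters of `K`. Proof: count the pairs `(φ, ψ)`, `ψ ∈ B`, `φ` over `ψ`,
with the weight `|stF N ψ|`. For given `φ` the `ψ` under it are one `N`-orbit, contained in `B` (CFA (2), CCJ (1)), of length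
`|N| / |stF N ψ|` (CCJ (3)), and `|stF N ψ|` is constant on the orbit: the total is `|N|` for every `φ`. For given `ψ` there are
`|stF N ψ| / |K|` characters `φ` (FCL): the total is `|stF N ψ| ^ 2 / |K| = |K| * (K.relIndex (stF N ψ)) ^ 2`
(`Subgroup.card_mul_index`-type: `|stF N ψ| = |K| * K.relIndex (stF N ψ)` for `K ≤ stF N ψ`). -/
def FCN_stmt : Prop :=
  ∀ (Γ : Type) [Group Γ] [Finite Γ] (K N : Subgroup Γ), K ≤ N → N ≤ nz K → ∀ B : Set (Γ → ℂ),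
    B ⊆ IrrOn K → (∀ n ∈ N, ∀ ψ ∈ B, cjF n ψ ∈ B) → (∀ ψ ∈ B, CyS K (stF N ψ)) →
    Nat.card N * {φ : Γ → ℂ | φ ∈ IrrOn N ∧ ∃ ψ ∈ B, ∃ e : ℕ, 0 < e ∧ OverE K N φ ψ e}.ncard =
      Nat.card K * ∑ᶠ ψ ∈ B, (K.relIndex (stF N ψ)) ^ 2

/-- **FOV** (medium; from C5a, C3 of DI, CCJ of DR, IF of DC). Blocks of `N` over blocks of `C_G(P)`. Proof: let `g : G`, `z` the indicator
function of `conjugatesOf g ∩ N`; `omega φ g = cc φ z` (`φ` vanishes outside `N`), `z` is invariant under conjugation by `N`, with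
integral values. Let `z'` be the indicator function of `conjugatesOf g ∩ cz P`. By C5a for `z - z'` (it vanishes on `cz P`)
`cc φ z ≡ cc φ z'`. By OverE `∑_x z' x * φ x = e ∑_{ψ'} ∑_x z' x * ψ' x` over the distinct `N`-conjugates `ψ'` of `ψ`; `z'` is
`N`-invariant, so all inner sums are equal, and `φ 1 = e * (number of conjugates) * ψ 1`; hence `cc φ z' = cc ψ z' = omega ψ g`. So
`omega φ g ≡ omega ψ g` modulo `M` for all `g`: this is `Induces M φ ψ`; IM of DC. -/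
def FOV_stmt : Prop :=
  ∀ (p : ℕ) (M : Ideal (integralClosure ℤ ℂ)), Setup p M → ∀ (G : Type) [Group G] [Finite G]
    (P N : Subgroup G), IsPGroup p P → P ≤ N → cz P ≤ N → N ≤ nz P → ∀ φ ∈ IrrOn N,
    ∀ ψ ∈ IrrOn (cz P), ∀ e : ℕ, 0 < e → OverE (cz P) N φ ψ e → ∀ χ : G → ℂ,
    (Induces M φ χ ↔ Induces M ψ χ)

/-- **F12** (short-medium; from FCN, FCL, FOV, CFA of DR, FEQ). Proof: `N` normalises `cz P` (`N ≤ nz P`). `B = Blk M χ (cz P)` is stable under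
`N` (FEQ: `cjS n (cz P) = cz P`, Induces). By CFA (1) and FOV `Blk M χ N` is the set of the `φ ∈ IrrOn N` over some `ψ ∈ B`: FCN. Defects:
`φ ∈ Blk M χ N` is over some `ψ ∈ B`, `φ 1 * |stF N ψ| = |N| * ψ 1` (FCL), and `|stF N ψ| = |cz P| * r`, `p ∤ r`; write
`φ 1 = m`, `ψ 1 = n` (IF): `v_p(m) + v_p|cz P| = v_p|N| + v_p(n)`. -/
def F12_stmt : Prop :=
  ∀ (p : ℕ) (M : Ideal (integralClosure ℤ ℂ)), Setup p M → ∀ (G : Type) [Group G] [Finite G]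
    (P N : Subgroup G), IsPGroup p P → P ≤ N → cz P ≤ N → N ≤ nz P → ∀ χ ∈ Irr G,
    (∀ ψ ∈ Blk M χ (cz P), CyS (cz P) (stF N ψ)) →
    Nat.card N * (Blk M χ N).ncard =
      Nat.card (cz P) * ∑ᶠ ψ ∈ Blk M χ (cz P), ((cz P).relIndex (stF N ψ)) ^ 2 ∧
    ∀ d : ℤ, (∀ ψ ∈ Blk M χ (cz P), ¬ p ∣ (cz P).relIndex (stF N ψ) ∧ Defect p (cz P) ψ d) →
      ∀ φ ∈ Blk M χ N, Defect p N φ d

/-! ## 4. Subpairs -/

/-- **FCY** (medium; pure algebra). A group of automorphisms of the finite abelian group `D ≠ 1` which is abelian and acts freely is cyclic.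
Proof: let `V = Additive D` (commutative group), `ρ t ∈ AddMonoid.End V`, `u ↦ t u t⁻¹`, for `t ∈ T`; `ρ` is multiplicative and the
`ρ t` commute with each other (commutators are in `C`, which acts trivially). Let `R` be the subring generated by the `ρ t`:
commutative (`Subring.closureCommRingOfComm`), finite (`V` is finite), nontrivial (`D ≠ ⊥`). If `t ∈ T`, `t ∉ C` then `ρ t - 1` is
injective on `V` (`t u t⁻¹ = u` implies `u = 1`), so it is not a zero divisor in `R`, so it is a unit of the finite commutative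
ring `R` (multiplication by it is injective on `R`, hence surjective), so it is in no maximal ideal. Let `m` be a maximal ideal of `R`;
the map `T → (R ⧸ m)`, `t ↦ ρ t`, is multiplicative with `ρ s = ρ t ↔ s⁻¹ t ∈ C` modulo `m`. A finite group which embeds in the
multiplicative monoid of a domain is cyclic (`isCyclic_of_subgroup_isDomain`): apply it to the image of `T` in the units of
`R ⧸ m` (or to `T ⧸ (C.subgroupOf T)`); take `s ∈ T` over a generator: for `x ∈ T` some `s ^ k * x` has image `1`, so it is in `C`. -/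
def FCY_stmt : Prop :=
  ∀ (G : Type) [Group G] [Finite G] (D C T : Subgroup G), D ≠ ⊥ →
    (∀ c ∈ D, ∀ d ∈ D, c * d = d * c) → C ≤ T → T ≤ nz D → (∀ c ∈ C, ∀ d ∈ D, c * d = d * c) →
    (∀ s ∈ T, ∀ t ∈ T, s * t * s⁻¹ * t⁻¹ ∈ C) →
    (∀ t ∈ T, ∀ u ∈ D, u ≠ 1 → t * u = u * t → t ∈ C) → CyS C T

/-- **FRA** (medium; from FEQ, FSI, IF of DC). Frattini. Let `K = cz P` (`D, cz D ≤ K` because `P ≤ D` and `D` is abelian).
(1) `cz D ≤ TT M D θ` (`cjF c θ = θ` for `c ∈ cz D`). If `t ∈ TT M D θ` commutes with some `u ∈ P`, `u ≠ 1`, then `t ∈ cz D` (`Free`).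
(2) `D₁ = cjS n D ≥ cjS n P = P`, `θ₁ = cjF n θ`; from `SB M K ψ θ` we get `SB M K (cjF n ψ) (cjF n θ)` (FEQ, `cjS n K = K`), and
`SB M K (cjF n ψ) θ`, so `SB M K θ₁ θ`, `SB M K θ₁ ψ`. `cnj` gives `k ∈ K` with `cjS (k n) D = D` and
`SB M (cz D) (cjF (k n) θ) θ`: `k * n ∈ TT M D θ`. (3) `SB M (cz D) (cjF t θ) θ` implies `SB M K (cjF t θ) θ` (FSI (1)), and
`SB M K (cjF t ψ) (cjF t θ)`. -/
def FRA_stmt : Prop :=
  ∀ (p : ℕ) (M : Ideal (integralClosure ℤ ℂ)), Setup p M → ∀ (G : Type) [Group G] [Finite G]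
    (D : Subgroup G) (x : G) (θ χ : G → ℂ), Lo0 p M D x θ χ → ∀ P ≤ D,
    (cz D ≤ TT M D θ ∧ cz D ≤ cz P ∧ D ≤ cz P ∧ (P ≠ ⊥ → TT M D θ ⊓ cz P = cz D)) ∧
    (∀ n ∈ nz P, ∀ ψ ∈ Bl M (cz P) θ, cjF n ψ ∈ Bl M (cz P) θ → ∃ k ∈ cz P, k * n ∈ TT M D θ) ∧
    (∀ t ∈ TT M D θ, t ∈ nz P → ∀ ψ ∈ Bl M (cz P) θ, cjF t ψ ∈ Bl M (cz P) θ)

/-- **FCP** (medium; from FRA, IF of DC). Stabilisers in `N`. Proof: let `K = cz P`, `S = stF N ψ`, `S₀ = stF (TT M D θ ⊓ N) ψ`. `K ≤ S`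
(`ψ` is a class function of `K`), `cz D ≤ S₀ ≤ S`. If `n ∈ S` then `k * n ∈ TT M D θ` for some `k ∈ K` (FRA (2)), and
`k * n ∈ S₀`. So `S = K S₀`, and `K ⊓ S₀ = cz D` (FRA (1)). The index `K.relIndex S` is the number of cosets, equal to
`(cz D).relIndex S₀` (the map `S₀ / cz D → S / K` is a bijection; or by cardinalities: `|S| |K ⊓ S₀| = |K| |S₀|`). `S₀ / cz D` is a
subgroup of the cyclic group `TT M D θ / cz D`: it is cyclic (`lo.cyc`; take the least positive power of the generator in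
`S₀` modulo `cz D`), and its order divides `(cz D).relIndex (TT M D θ)`. -/
def FCP_stmt : Prop :=
  ∀ (p : ℕ) (M : Ideal (integralClosure ℤ ℂ)), Setup p M → ∀ (G : Type) [Group G] [Finite G]
    (D : Subgroup G) (x : G) (θ χ : G → ℂ), Lo0 p M D x θ χ → ∀ P ≤ D, P ≠ ⊥ → ∀ N : Subgroup G,
    cz P ≤ N → N ≤ nz P → ∀ ψ ∈ Bl M (cz P) θ,
    CyS (cz P) (stF N ψ) ∧ ¬ p ∣ (cz P).relIndex (stF N ψ) ∧
    (cz P).relIndex (stF N ψ) = (cz D).relIndex (stF (TT M D θ ⊓ N) ψ) ∧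
    CyS (cz D) (TT M D θ ⊓ N)

/-- **FNG** (medium; from FRA, FEQ, FSI). Counting. Proof: `lo.con` gives `g₀` in the set. Let `P₀ = cjS g₀ P ≤ D`, `K = cz P`,
`T = TT M D θ`. CLAIM: the set is `{t * g₀ * k | t ∈ T, k ∈ K}`. `⊇`: `cjS (t g₀ k) P = cjS t P₀ ≤ cjS t D = D`;
`cjF (t g₀ k) η = cjF t (cjF g₀ η)` and `SB M (cz (cjS t P₀)) (cjF t θ) (cjF (t g₀) η)` (FEQ),
`SB M (cz (cjS t P₀)) (cjF t θ) θ` by FSI (1) from `SB M (cz D) (cjF t θ) θ`. `⊆`: let `g` be in the set, `D₁ = cjS (g₀ g⁻¹) D`,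
`θ₁ = cjF (g₀ g⁻¹) θ`: `P₀ = cjS (g₀ g⁻¹) (cjS g P) ≤ D₁`, and `SB M (cz P₀) θ₁ (cjF g₀ η)` (FEQ), `SB M (cz P₀) θ (cjF g₀ η)`; by
`lo.cnj` there is `l ∈ cz P₀` with `t = l * g₀ * g⁻¹ ∈ T`; so `g = t⁻¹ * g₀ * (g₀⁻¹ * l * g₀)` and `g₀⁻¹ l g₀ ∈ K`. Count: `t g₀ k = t' g₀ k'`
iff `t'⁻¹ t = g₀ k' k⁻¹ g₀⁻¹ ∈ T ⊓ cz P₀ = cz D` (FRA (1)); so all fibres of `T × K → G`, `(t, k) ↦ t g₀ k`, over the set have
`|cz D|` elements. -/
def FNG_stmt : Prop :=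
  ∀ (p : ℕ) (M : Ideal (integralClosure ℤ ℂ)), Setup p M → ∀ (G : Type) [Group G] [Finite G]
    (D : Subgroup G) (x : G) (θ χ : G → ℂ), Lo0 p M D x θ χ → ∀ P : Subgroup G, IsPGroup p P →
    P ≠ ⊥ → ∀ η ∈ Blk M χ (cz P),
    {g : G | cjS g P ≤ D ∧ SB M (cz (cjS g P)) θ (cjF g η)}.ncard * Nat.card (cz D) =
      Nat.card (TT M D θ) * Nat.card (cz P)

/-! ## 5. Generalised decomposition numbers -/

/-- **HTN** (medium; from BR0 of GR, B2 of DI, FBC). The norm on the `p`-regular elements. Proof: let `b = Bl M L θ` (finite, `|D|`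
elements) and `E ψ ψ' = |L|⁻¹ ∑_{v ∈ L, p-regular} ψ v * ψ' v⁻¹`. `∑_{ψ' ∈ b} E ψ ψ' * E ψ' ψ''` is
`|L|⁻² ∑_v ψ v ∑_w Sf b w v * ψ'' w⁻¹` over the `p`-regular `v, w`; by BR0 `Sf b w v = 0` if `w ∈ L` is not `p`-regular
(`w = y' v'` with `y' ≠ 1`; the `p`-part of `v` is `1`), so the sum over `w` may be extended to all `w ∈ L`, and
`∑_w Sf b w v * ψ'' w⁻¹ = ∑_{ψ' ∈ b} ψ' v⁻¹ ∑_w ψ' w * ψ'' w⁻¹ = |L| ψ'' v⁻¹` (B2). So `E` is idempotent. By `Good.reg` all entries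
are equal, `= c`, and `c = |D| c²`; `c ≠ 0` because `ψ v * ψ v⁻¹ = |ψ v|² ≥ 0` (`ψ v⁻¹ = conj (ψ v)`: grep `conj` in
`helper22/OB` or GR; e.g. from GLP / ISL) and the term `v = 1` is positive. So `c = 1 / |D|`. -/
def HTN_stmt : Prop :=
  ∀ (p : ℕ) (M : Ideal (integralClosure ℤ ℂ)), Setup p M → ∀ (G : Type) [Group G] [Finite G]
    (D L : Subgroup G) (θ : G → ℂ), Good p M D L θ → ∀ ψ ∈ Bl M L θ, ∀ ψ' ∈ Bl M L θ,
    (Nat.card D : ℂ) * ∑ᶠ v ∈ {v : G | v ∈ L ∧ PReg p v}, ψ v * ψ' v⁻¹ = Nat.card L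

open Classical in
/-- **HTZ** (medium; from HTN, CCI of GR, C3 of DI, IF of DC). Heights are zero. Proof: let `L = cz P`, `n = ψ 1`, `z v = ψ v⁻¹` for `v ∈ L`
`p`-regular and `0` otherwise (`L`-invariant, integral values). `cc ψ z` is integral (C3), and by HTN
`|D| * ψ 1 * cc ψ z = |L|`, so `cc ψ z` is rational, hence an integer, and `|D| n` divides `|L|` (`IsIntegral` rational is an integer:
`IsIntegrallyClosed ℤ`). So `v_p(n) + a ≤ v_p|L|`. By `lo.dfl` there is `x'` with `DefL p M L ψ D x'`: `cc ψ (cls L x') =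
|L : C_L(x')| ψ(x') / n` is not in `M` and `|C_L(x')|_p = |D|`. If `v_p(n) < v_p|L : C_L(x')| = v_p|L| - a` then `|L : C_L(x')| / n` is
`p` times an element of the local ring and `ψ x'` is integral, so `cc ψ (cls L x')` is `InM`, a contradiction. Hence
`v_p(n) = v_p|L| - a`. -/
def HTZ_stmt : Prop :=
  ∀ (p : ℕ) (M : Ideal (integralClosure ℤ ℂ)), Setup p M → ∀ (G : Type) [Group G] [Finite G]
    (D : Subgroup G) (x : G) (θ χ : G → ℂ), Lo0 p M D x θ χ → ∀ P ≤ D, Good p M D (cz P) θ →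
    ∀ ψ ∈ Bl M (cz P) θ, ∀ a : ℕ, Nat.card D = p ^ a → Defect p (cz P) ψ a

/-- **TRX** (medium; from B2, B1 of DI, EXP of GR). Trace formula. Proof: both sides are bilinear in `i`, `j`; the left side is
`∑_x ∑_w i x * j w * #{z ∈ H | z⁻¹ (x a) z = w⁻¹ b}` (substitute `w = b z⁻¹ a⁻¹ x⁻¹ z`), the right side is
`∑_x ∑_w i x * j w * ∑_{χ'} χ' (a x) * χ' (b⁻¹ w)`. Column orthogonality for `H`: `∑_{χ' ∈ IrrOn H} χ' g * χ' g'⁻¹ = #{z ∈ H |
z⁻¹ g z = g'}` for `g, g' ∈ H` (grep column orthogonality: IDM of GR with `S = IrrOn H`, for which `eS H S = dl` on `H` by EXP, gives it at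
once: `∑_{z ∈ H} dl (z⁻¹ g⁻¹ z g') = Sf (IrrOn H) g g'`). Here `g = x a` (`χ' (a x) = χ' (x a)`), `g' = w⁻¹ b`. -/
def TRX_stmt : Prop :=
  ∀ (G : Type) [Group G] [Finite G] (H : Subgroup G) (i j : G → ℂ), (∀ x, x ∉ H → i x = 0) →
    (∀ x, x ∉ H → j x = 0) → ∀ a ∈ H, ∀ b ∈ H,
    ∑ᶠ z ∈ (H : Set G), ∑ᶠ x, i x * j (b * z⁻¹ * a⁻¹ * x⁻¹ * z) =
      ∑ᶠ χ' ∈ IrrOn H, ev χ' i a * ev χ' j b⁻¹

/-- **KYH** (medium; from KEY of GR; copy the proof of KYG of GR). KEY for two idempotents. Proof: KEY with `Z = H`,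
`ε z w = ∑_x i x * j (w⁻¹ x⁻¹ z)` (the coefficient of `z` in `i w j`), `π z = a z b⁻¹`, `a = y v`, `b = y' v'`,
`n₀ = orderOf v * orderOf v'`. `ε` is idempotent because `i`, `j` are (`i (i w j) j = i w j`; `∑_{u ∈ H} ε z u * ε u w`: the supports
are in `H`), invariant under `π` because `i` is invariant under conjugation by `a` and `j` by `b`. `ε z (π z) =
∑_x i x * j (b z⁻¹ a⁻¹ x⁻¹ z)`. If `π ^ n₀ z = z` then `y ^ n₀ z = z y' ^ n₀`, and as `n₀` is prime to `p`, `z⁻¹ y z = y'`. -/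
def KYH_stmt : Prop :=
  ∀ (p : ℕ) (M : Ideal (integralClosure ℤ ℂ)), Setup p M → ∀ (G : Type) [Group G] [Finite G]
    (H : Subgroup G) (i j : G → ℂ), (∀ x, x ∉ H → i x = 0) → (∀ x, x ∉ H → j x = 0) →
    (∀ x, IntAt M (i x)) → (∀ x, IntAt M (j x)) → cv i i = i → cv j j = j →
    ∀ y ∈ H, ∀ v ∈ H, ∀ y' ∈ H, ∀ v' ∈ H, PEl p y → PEl p y' → PReg p v → PReg p v' →
    Commute y v → Commute y' v' → (∀ x, i ((y * v) * x * (y * v)⁻¹) = i x) →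
    (∀ x, j ((y' * v') * x * (y' * v')⁻¹) = j x) →
    (∀ z ∈ H, ∀ w ∈ H, z⁻¹ * y * z = y' → w⁻¹ * y * w = y' →
      InM M (∑ᶠ x, i x * j (w⁻¹ * x⁻¹ * z))) →
    ∀ r : ℕ, Small p M r
      (∑ᶠ z ∈ (H : Set G), ∑ᶠ x, i x * j ((y' * v') * z⁻¹ * (y * v)⁻¹ * x⁻¹ * z))

/-- **EVC** (short; from IF of DC, ISL-type facts). Facts on `ev` for `i = eS C S`, `C ≤ H`. (1) `ev χ' i g⁻¹ = conj (ev χ' i g)` for `g ∈ C`:
`χ' x⁻¹ = conj (χ' x)`, `eS C S x⁻¹ = conj (eS C S x)`, substitute `x ↦ x⁻¹`, `χ' (x u) = χ' (u x)`. (2) `ev χ' i g` is integral over `ℤ`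
up to the factor `|C|`: `(Nat.card C : ℂ) * ev χ' i g` is integral. -/
def EVC_stmt : Prop :=
  ∀ (G : Type) [Group G] [Finite G] (C H : Subgroup G) (S : Set (G → ℂ)), S ⊆ IrrOn C → C ≤ H →
    ∀ χ' ∈ IrrOn H, ∀ g ∈ C, ev χ' (eS C S) g⁻¹ = (starRingEnd ℂ) (ev χ' (eS C S) g) ∧
      IsIntegral ℤ ((Nat.card C : ℂ) * ev χ' (eS C S) g)

/-- **EVD** (medium; from B2, B3 of DI, IDM, SCH of GR). `dd` and `ev`. Proof: let `C = Cz L u`, `b = Bl M C θ`, `h = eS C b`, `g = u v ∈ C`.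
The restriction of `χ'` to `C` is `∑_{ψ ∈ IrrOn C} mt C χ' ψ * ψ` (B3 for the group `L`, orthogonality B2). For `ψ ∈ IrrOn C`:
`∑_x h x * ψ (g x) = ψ g` if `ψ ∈ b` and `0` otherwise (`cc ψ h` from IDM and SCH: `ψ(1) ∑_x h x ψ(g x) = ψ(g) ∑_x h x ψ(x)` for the
class function `h` of `C`). So `ev χ' h g = ∑_{ψ ∈ b} mt C χ' ψ * ψ (u v)`, `ψ (u v) = (ψ u / ψ 1) ψ v` (SCH, `u` is central in `C`), and
`ψ v = ψ₀ v` by `Good.reg`. -/
def EVD_stmt : Prop :=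
  ∀ (p : ℕ) (M : Ideal (integralClosure ℤ ℂ)), Setup p M → ∀ (G : Type) [Group G] [Finite G]
    (D L : Subgroup G) (θ : G → ℂ), ∀ u ∈ L, Good p M D (Cz L u) θ → ∀ χ' ∈ IrrOn L,
    ∀ ψ₀ ∈ Bl M (Cz L u) θ, ∀ v ∈ Cz L u, PReg p v →
    ev χ' (eS (Cz L u) (Bl M (Cz L u) θ)) (u * v) = dd M (Cz L u) θ χ' u * ψ₀ v

/-- **DOA** (medium; from KYH, TRX, FCO, IDM, EIN, CVF, ZER, SFC of GR, EVC). Norm of a column. Proof: let `C = Cz H y`, `h = eS C S` (class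
function of `C`, idempotent, IntAt: IDM, EIN), `i = dl - h` (idempotent, `cv i h = 0`). Apply KYH to `i`, `j = h`, `y = y'`,
`v = v' = 1`: for `z, w ∈ C` `∑_x i x * h (w⁻¹ x⁻¹ z) = ∑_x i x * h (x⁻¹ z w⁻¹) = cv i h (z w⁻¹) = 0` (`h` is a class function of `C`, and
`i x` only matters for `x ∈ C`). With TRX: `∑_{χ'} ev χ' (dl - h) y * ev χ' h y⁻¹` is `Small r` for all `r`; times `|C|²` it is integral, so
it is `0` (ZER). `ev χ' dl y = χ' y`. So `∑ ev χ' h y * ev χ' h y⁻¹ = ∑ χ' y * ev χ' h y⁻¹`, which by TRX (`i = dl`) is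
`∑_{z ∈ H} h (y z⁻¹ y⁻¹ z)`, and after conjugation (`h` is invariant under `C`; substitute `z ↦ z⁻¹`-type) the left side of FCO with
`v = v' = 1`: `Sf S y y = Sf S 1 1` (SFC, `y` is central in `C`). -/
def DOA_stmt : Prop :=
  ∀ (p : ℕ) (M : Ideal (integralClosure ℤ ℂ)), Setup p M → ∀ (G : Type) [Group G] [Finite G]
    (H : Subgroup G), ∀ y ∈ H, PEl p y → ∀ S : Set (G → ℂ), BC M (Cz H y) S →
    ∑ᶠ χ' ∈ IrrOn H, ev χ' (eS (Cz H y) S) y * ev χ' (eS (Cz H y) S) y⁻¹ = Sf S 1 1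

/-- **DOB** (medium; from KYH, TRX, IDM, EIN, CVF, CCI, EXP, ZER of GR, FEQ). Orthogonality of columns. Proof: let `h = eS (Cz H a) S`,
`h' = eS (Cz H u) S'`. KYH for `i = h`, `j = h'`, `y = a`, `y' = u`, `v = v' = 1`: let `z⁻¹ a z = u = w⁻¹ a w`, `z, w ∈ H`. Then
`∑_x h x * h' (w⁻¹ x⁻¹ z) = ∑_x h x * h'' (x⁻¹ z w⁻¹) = cv h h'' (z w⁻¹)` with `h'' x = h' (w⁻¹ x w)`, which is
`eS (Cz H a) {cjF w ψ | ψ ∈ S'}` (`z w⁻¹ ∈ Cz H a`), and `cv h h'' = 0` because the sets are disjoint (IDM, CCI, EXP: all `cc` of the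
product are `0`). By TRX the sum on the left is `Small r` for all `r`, times `|Cz H a| |Cz H u|` it is integral (EVC), so `0`. -/
def DOB_stmt : Prop :=
  ∀ (p : ℕ) (M : Ideal (integralClosure ℤ ℂ)), Setup p M → ∀ (G : Type) [Group G] [Finite G]
    (H : Subgroup G), ∀ a ∈ H, PEl p a → ∀ u ∈ H, PEl p u → ∀ S S' : Set (G → ℂ),
    BC M (Cz H a) S → BC M (Cz H u) S' →
    (∀ w ∈ H, w * u * w⁻¹ = a → ∀ ψ ∈ S', cjF w ψ ∉ S) →
    ∑ᶠ χ' ∈ IrrOn H, ev χ' (eS (Cz H a) S) a * ev χ' (eS (Cz H u) S') u⁻¹ = 0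

/-- **DOC** (medium; from KYH, TRX, IDM, EIN, CVF, SCH, ZER of GR, EVC). Second main theorem. Proof: let `C = Cz H y`, `h = eS C S`,
`e = eS H E`, `i = h - cv e h` (`e` is central in the group algebra of `H`, so `cv e h = cv h e` and `i` is idempotent; IntAt; support in
`H`; invariant under conjugation by `C`). `ev χ' i y = 0` if `χ' ∈ E` and `= ev χ' h y` otherwise (`∑_x (cv e h) x * χ' (y x) =
cc χ' e * ∑_x h x χ' (y x)`). KYH for `i`, `j = i`, `y = y'`, `v = v' = 1`: for `z, w ∈ C` the condition is `InM M (cv i i' (z w⁻¹))`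
with `i' x = i (w⁻¹ x w) = i x`, so it is `InM M (i l)` for `l = z w⁻¹ ∈ C`: `i l = h l - ∑_{x ∈ C} e (l x⁻¹) * h x`, and
`e (l x⁻¹) ≡ eS C F (l x⁻¹)`, so `i l ≡ h l - (cv (eS C F) h) l = 0` (`S ⊆ F`, IDM, CCI, EXP). So by TRX, EVC, ZER:
`∑_{χ' ∈ IrrOn H, χ' ∉ E} ev χ' h y * conj (ev χ' h y) = 0` (for `j = i` the second factor is `ev χ' i y⁻¹`, equal to
`ev χ' h y⁻¹` for `χ' ∉ E`), a sum of nonnegative numbers. -/
def DOC_stmt : Prop :=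
  ∀ (p : ℕ) (M : Ideal (integralClosure ℤ ℂ)), Setup p M → ∀ (G : Type) [Group G] [Finite G]
    (H : Subgroup G), ∀ y ∈ H, PEl p y → ∀ E S F : Set (G → ℂ), BC M H E → BC M (Cz H y) S →
    BC M (Cz H y) F → S ⊆ F → (∀ z ∈ Cz H y, InM M (eS H E z - eS (Cz H y) F z)) →
    ∀ χ' ∈ IrrOn H, χ' ∉ E → ev χ' (eS (Cz H y) S) y = 0

/-- **DOR** (medium; from DOA, DOB, DOC, EVD, EVC, FBC, FEQ, FSI). Orthogonality of the generalised decomposition numbers in the block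
`Bl M L θ`, `L = cz P` (`P = ⊥` allowed). Proof: let `b_u = Bl M (Cz L u) θ`, `h_u = eS (Cz L u) b_u`, `ψ_u ∈ b_u` (not empty, `Good.card`);
`ev χ' h_u u = dd χ' u * ψ_u 1` (EVD, `v = 1`), `ψ_u 1` is a positive integer. The sum over `Bl M L θ` may be extended to `IrrOn L`: for
`χ' ∈ IrrOn L` not in `Bl M L θ` `ev χ' h_u u = 0` by DOC (`E = Bl M L θ`, `F = BlC M L θ u`, `lo.eqr`, FBC). Case `a = u`: DOA,
`Sf b_u 1 1 = |D| (ψ_u 1)²` (`Good`), EVC (1). Case of no `t`: DOB; let `w ∈ L`, `w u w⁻¹ = a`, `ψ ∈ b_u`, `cjF w ψ ∈ b_a`. Let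
`P' = P ⊔ zpowers a ≤ D`: `cz P' = Cz L a`. `D₁ = cjS w D ≥ P'` (`w ∈ cz P`, `w u w⁻¹ = a`), `θ₁ = cjF w θ`:
`SB M (Cz L a) θ₁ (cjF w ψ)` (FEQ) and `SB M (Cz L a) θ (cjF w ψ)`; `lo.cnj` gives `l ∈ Cz L a` with `t = l w ∈ TT M D θ`; `t ∈ L` and
`t u t⁻¹ = l a l⁻¹ = a`, a contradiction. -/
def DOR_stmt : Prop :=
  ∀ (p : ℕ) (M : Ideal (integralClosure ℤ ℂ)), Setup p M → ∀ (G : Type) [Group G] [Finite G]
    (D : Subgroup G) (x : G) (θ χ : G → ℂ), Lo0 p M D x θ χ → ∀ P ≤ D, ∀ a ∈ D, ∀ u ∈ D,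
    Good p M D (Cz (cz P) a) θ → Good p M D (Cz (cz P) u) θ →
    (∀ χ' ∈ IrrOn (cz P), χ' ∉ Bl M (cz P) θ → dd M (Cz (cz P) u) θ χ' u = 0) ∧
    (a = u → ∑ᶠ χ' ∈ Bl M (cz P) θ, dd M (Cz (cz P) a) θ χ' a *
      (starRingEnd ℂ) (dd M (Cz (cz P) u) θ χ' u) = Nat.card D) ∧
    ((¬ ∃ t ∈ TT M D θ ⊓ cz P, t * u * t⁻¹ = a) →
      ∑ᶠ χ' ∈ Bl M (cz P) θ, dd M (Cz (cz P) a) θ χ' a *
        (starRingEnd ℂ) (dd M (Cz (cz P) u) θ χ' u) = 0)

/-- **BPL** (short-medium; pure). Brauer's permutation lemma. Proof: the matrix `X` (`A × B`) satisfies `Xᴴ X = n` (`X^* X` for the index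
`B`), it is square, so it is invertible; with the permutation matrices `P` of `σ`, `Q` of `τ`: `P X = X Q`, so
`trace P = trace (X Q X⁻¹) = trace Q`, and the trace of a permutation matrix is the number of fixed points. Elementary: as
`|A| = |B|`, also `∑_b X a b * conj (X a' b) = n [a = a']`; then `n #{σ a = a} = ∑_a ∑_b X a b * conj (X (σ a) b)`
`= ∑_b ∑_a X a b * conj (X a (τ⁻¹ b)) = n #{τ⁻¹ b = b}` (using `X (σ a) b = X a (τ⁻¹ b)`). -/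
def BPL_stmt : Prop :=
  ∀ (A B : Type) [Fintype A] [Fintype B] [DecidableEq A] [DecidableEq B] (X : A → B → ℂ)
    (σ : Equiv.Perm A) (τ : Equiv.Perm B) (n : ℂ), n ≠ 0 → Fintype.card A = Fintype.card B →
    (∀ b b' : B, ∑ a, X a b * (starRingEnd ℂ) (X a b') = if b = b' then n else 0) →
    (∀ a b, X (σ a) (τ b) = X a b) →
    (Finset.univ.filter fun a => σ a = a).card = (Finset.univ.filter fun b => τ b = b).card

/-- **DDT** (short-medium; from FEQ, FSI, FRA). Equivariance of `dd`. Proof: let `L = cz P` (`cjS t L = L`), `C = Cz L u`,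
`C' = Cz L (t u t⁻¹) = cjS t C`. `ψ' ↦ cjF t ψ'` is a bijection from `Bl M C θ` onto `Bl M C' (cjF t θ) = Bl M C' θ`
(`SB M (cz D) (cjF t θ) θ` and `cz D ≤ C'`, FSI (1)); `mt C' (cjF t ψ) (cjF t ψ') = mt C ψ ψ'`, `cjF t ψ' (t u t⁻¹) = ψ' u`,
`cjF t ψ' 1 = ψ' 1`. -/
def DDT_stmt : Prop :=
  ∀ (p : ℕ) (M : Ideal (integralClosure ℤ ℂ)), Setup p M → ∀ (G : Type) [Group G] [Finite G]
    (D : Subgroup G) (x : G) (θ χ : G → ℂ), Lo0 p M D x θ χ → ∀ P ≤ D, ∀ t ∈ TT M D θ, t ∈ nz P →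
    ∀ u ∈ D, ∀ ψ ∈ IrrOn (cz P),
    dd M (Cz (cz P) (t * u * t⁻¹)) θ (cjF t ψ) (t * u * t⁻¹) = dd M (Cz (cz P) u) θ ψ u

/-- **FIX** (medium; from DOR, BPL, DDT, FRA, FEQ). Fixed characters. Proof: BPL for `A = Bl M (cz P) θ`, `B = D`,
`X ψ u = dd M (Cz (cz P) u) θ ψ u`, `σ ψ = cjF t ψ` (FRA (3) for `t`, `t⁻¹`), `τ u = t u t⁻¹` (`t ∈ nz D`), `n = |D|`. `|A| = |D|` by
`Good.card` for `P`. `Cz (cz P) u = cz (P ⊔ zpowers u)` is Good (`Loc.good`). Orthogonality: DOR (2), and for `a ≠ u` DOR (3): an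
element `t' ∈ TT M D θ ⊓ cz P = cz D` (FRA (1)) centralises `u ∈ D`, so `t' u t'⁻¹ = u ≠ a`. DDT: `X (σ ψ) (τ u) = X ψ u`. The fixed
points of `τ`: `t u = u t` implies `u = 1` (`Free`, `t ∉ cz D`): exactly one. -/
def FIX_stmt : Prop :=
  ∀ (p : ℕ) (M : Ideal (integralClosure ℤ ℂ)), Setup p M → ∀ (G : Type) [Group G] [Finite G]
    (D : Subgroup G) (x : G) (θ χ : G → ℂ), Loc p M D x θ χ → ∀ P ≤ D, P ≠ ⊥ →
    ∀ t ∈ TT M D θ, t ∈ nz P → t ∉ cz D →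
    {ψ : G → ℂ | ψ ∈ Bl M (cz P) θ ∧ cjF t ψ = ψ}.ncard = 1

/-- **FSQ** (medium; from FIX, FCP, FRA). Sum of the squares of the stabilisers. Proof: let `T₀ = TT M D θ ⊓ N`, `b = Bl M (cz P) θ`,
`|b| = |D|` (Good). By FCP (3) the summand is `((cz D).relIndex (stF T₀ ψ))²`. If `T₀ = cz D` all these are `1` and the right side is
`|D| - 1 + 1`. Otherwise take `s ∈ T₀` from `CyS (cz D) T₀` (FCP (4)): `s ∉ cz D`, and by FIX there is exactly one `ψ₀ ∈ b` fixed by `s`;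
`ψ₀` is fixed by `T₀` (every element of `T₀` is, up to `cz D`, a power of `s`; `cz D ≤ cz P` fixes `ψ₀`), so its term is
`((cz D).relIndex T₀)²`. If `ψ ∈ b` is fixed by some `t ∈ T₀`, `t ∉ cz D`, then `ψ = ψ₀` by FIX for `t`; so for `ψ ≠ ψ₀`
`stF T₀ ψ = cz D` and the term is `1`. -/
def FSQ_stmt : Prop :=
  ∀ (p : ℕ) (M : Ideal (integralClosure ℤ ℂ)), Setup p M → ∀ (G : Type) [Group G] [Finite G]
    (D : Subgroup G) (x : G) (θ χ : G → ℂ), Loc p M D x θ χ → ∀ P ≤ D, P ≠ ⊥ → ∀ N : Subgroup G,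
    cz P ≤ N → N ≤ nz P →
    ∑ᶠ ψ ∈ Bl M (cz P) θ, ((cz P).relIndex (stF N ψ)) ^ 2 =
      Nat.card D - 1 + ((cz D).relIndex (TT M D θ ⊓ N)) ^ 2

/-! ## 6. The sum over the chains -/

/-- **FCQ** (short-medium; from FCP, HTZ, FEQ). The characters of `C_G(P)`, `P` an arbitrary `p`-subgroup `≠ ⊥`. Proof: `lo.con` gives `g` with
`P' = cjS g P ≤ D` and `SB M (cz P') θ (cjF g ψ)`, so `cjF g ψ ∈ Bl M (cz P') θ`. Apply FCP and HTZ to `P'`, `N' = cjS g N`, `cjF g ψ`,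
and transport back by FEQ (`stF`, `relIndex`, `CyS`: generator `g⁻¹ s g`; `Defect` depends on `Nat.card` and the value at `1`). -/
def FCQ_stmt : Prop :=
  ∀ (p : ℕ) (M : Ideal (integralClosure ℤ ℂ)), Setup p M → ∀ (G : Type) [Group G] [Finite G]
    (D : Subgroup G) (x : G) (θ χ : G → ℂ), Loc p M D x θ χ → ∀ P : Subgroup G, IsPGroup p P →
    P ≠ ⊥ → ∀ N : Subgroup G, cz P ≤ N → N ≤ nz P → ∀ ψ ∈ Blk M χ (cz P),
    CyS (cz P) (stF N ψ) ∧ ¬ p ∣ (cz P).relIndex (stF N ψ) ∧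
    ∀ a : ℕ, Nat.card D = p ^ a → Defect p (cz P) ψ a

/-- **FNC** (medium; from FMX, F12, FCQ, FNG, FSQ, FEQ, FSI). One chain. Proof: `P` from FMX, `N = nrm C`, `K = cz P`. By F12 (FCQ)
`|N| * |Blk M χ N| = |K| * ∑_{η ∈ Blk M χ K} s_η²`, `s_η = K.relIndex (stF N η)`, and the defects are `a`. Multiply by `|T|`, use FNG:
`|T| |K| s_η² = |cz D| * ∑_{g ∈ A_η} s_η²`, `A_η` the set of FNG. Exchange the sums: for given `g` with `cjS g P ≤ D` (equivalently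
`cjS g Q ≤ D` for all `Q ∈ C`, as `Q ≤ P ∈ C`) the `η ∈ Blk M χ K` with `g ∈ A_η` correspond by `η ↦ cjF g η` to the elements of
`Bl M (cz P') θ`, `P' = cjS g P` (FEQ; conversely `ψ ∈ Bl M (cz P') θ` has `Induces M ψ χ` by FSI (2) and `rt.ind`), and
`s_η = (cz P').relIndex (stF (cjS g N) (cjF g η))` (FEQ). By FSQ for `P'`, `cjS g N` the inner sum is
`|D| - 1 + ((cz D).relIndex (TT M D θ ⊓ cjS g N))²`. -/
def FNC_stmt : Prop :=
  ∀ (p : ℕ) (M : Ideal (integralClosure ℤ ℂ)), Setup p M → ∀ (G : Type) [Group G] [Finite G]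
    (D : Subgroup G) (x : G) (θ χ : G → ℂ), Loc p M D x θ χ → ∀ C : Finset (Subgroup G),
    NCh p ⊤ ⊥ C → C ≠ {⊥} →
    Nat.card (TT M D θ) * (Nat.card (nrm C) * (Blk M χ (nrm C)).ncard) =
      Nat.card (cz D) * ∑ᶠ g ∈ {g : G | ∀ Q ∈ C, cjS g Q ≤ D},
        (Nat.card D - 1 + ((cz D).relIndex (TT M D θ ⊓ cjS g (nrm C))) ^ 2) ∧
    ∀ φ ∈ Blk M χ (nrm C), ∀ a : ℕ, Nat.card D = p ^ a → Defect p (nrm C) φ a

/-- **FFS** (medium; from FNC, FTG, NM, SN of DC). The sum over the nontrivial chains. Proof: multiply by `|T|`, insert FNC and exchange the sums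
(everything finite): `|cz D| * ∑_g ∑_C (-1)^(|C|+1) f (T ⊓ cjS g (nrm C))` over the normal chains `C ≠ {⊥}` with `cjS g Q ≤ D` for all
`Q ∈ C`, `f U = |D| - 1 + ((cz D).relIndex U)²`. For fixed `g` the map `C ↦ chainMap (MulAut.conj g) C` is a bijection from these `C` onto
the `C'` with `PCh p D ⊥ C'`, `C' ≠ {⊥}` (inverse: `g⁻¹`; chains of subgroups of the abelian group `D` are normal:
`R ≤ D` centralises `Q ≤ D`), with the same number of terms and `nrm C' = cjS g (nrm C)` (NM). So the inner sum is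
`- f T` (FTG, `T ≤ nz D`, `IsPGroup p D` from `rt.dfa.pgrp`), and the total is `- |G| |cz D| f T`; `T ⊓ nrm ..` for `f T`:
`f T = |D| - 1 + ((cz D).relIndex T)²`. -/
def FFS_stmt : Prop :=
  ∀ (p : ℕ) (M : Ideal (integralClosure ℤ ℂ)), Setup p M → ∀ (G : Type) [Group G] [Finite G]
    (D : Subgroup G) (x : G) (θ χ : G → ℂ), Loc p M D x θ χ →
    (Nat.card (TT M D θ) : ℤ) * ∑ᶠ C ∈ {C : Finset (Subgroup G) | NCh p ⊤ ⊥ C ∧ C ≠ {⊥}},
      (-1) ^ (C.card + 1) * ((Nat.card (nrm C) : ℤ) * (Blk M χ (nrm C)).ncard) =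
    - ((Nat.card G : ℤ) * Nat.card (cz D) *
      ((Nat.card D : ℤ) - 1 + ((cz D).relIndex (TT M D θ) : ℤ) ^ 2))

open Classical in
/-- **FFF** (medium; from FT0, FFS, FNC, FRA). THE OUTPUT OF BLOCK F. Proof: in FT0 split off the chain `{⊥}` (`NCh p ⊤ ⊥ {⊥}`; sign `+1`,
`nrm {⊥} = ⊤`): it gives `|G| * (BlkD p M χ ⊤ d).ncard`. For `C ≠ {⊥}`: if `d = a` then `BlkD p M χ (nrm C) d = Blk M χ (nrm C)` (FNC,
last item), otherwise `BlkD` is empty (`Defect` has only one `d`). So `|T| |G| altSum = |T| |G| |BlkD ⊤ d| - [d = a] |G| |cz D| (..)` by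
FFS; `|T| = |cz D| * (cz D).relIndex T` (FRA (1)); cancel `|G| |cz D|`. -/
def FFF_stmt : Prop :=
  ∀ (p : ℕ) (M : Ideal (integralClosure ℤ ℂ)), Setup p M → ∀ (G : Type) [Group G] [Finite G]
    (D : Subgroup G) (x : G) (θ χ : G → ℂ), Loc p M D x θ χ → IsOp p (⊤ : Subgroup G) ⊥ →
    ∀ a : ℕ, Nat.card D = p ^ a → ∀ d : ℤ,
    ((cz D).relIndex (TT M D θ) : ℤ) * altSum (trivE G) p M χ d ⊤ =
      ((cz D).relIndex (TT M D θ) : ℤ) * (BlkD p M χ ⊤ d).ncard -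
        (if d = a then (Nat.card D : ℤ) - 1 + ((cz D).relIndex (TT M D θ) : ℤ) ^ 2 else 0)

end Pool.Agent.FI
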