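import Pool.Agent.helper11.FI.FEQ
import Pool.Agent.helper16.FI.BPL
import Pool.Agent.helper18.FI.FNC
import Pool.Agent.helper20.FI.TRX
import Pool.Agent.helper24.FI.DOA
import Pool.Agent.helper24.FI.EVC
import Pool.Agent.helper25.FI.FOV
import Pool.Agent.helper28.FI.FIX
import Pool.Agent.helper29.FI.FCL
import Pool.Agent.helper3.FI.EVD
import Pool.Agent.helper31.FI.FFF
import Pool.Agent.helper41.FI.FBC
import Pool.Agent.helper43.FI.DOR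
import Pool.Agent.helper43.FI.FT0
import Pool.Agent.helper45.FI.FSI
import Pool.Agent.helper49.FI.FNO
import Pool.Agent.helper50.FI.KYH
import Pool.Agent.helper51.FI.HTN
import Pool.Agent.helper57.FI.FFS
import Pool.Agent.helper6.FI.FCP
import Pool.Agent.helper64.FI.HTZ
import Pool.Agent.helper65.FI.FNR
import Pool.Agent.helper67.FI.FCE
import Pool.Agent.helper68.FI.DDT
import Pool.Agent.helper68.FI.FCQ
import Pool.Agent.helper68.FI.FSQ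
import Pool.Agent.helper72.FI.F12
import Pool.Agent.helper72.FI.FCN
import Pool.Agent.helper74.FI.DOC
import Pool.Agent.helper79.FI.FTG
import Pool.Agent.helper8.FI.FCY
import Pool.Agent.helper89.FI.DOB
import Pool.Agent.helper96.FI.FMX
import Pool.Agent.helper96.FI.FNG
import Pool.Agent.helper98.FI.FRA
import Pool.Agent.helper35.DR.AllDI
import Pool.Agent.helper35.DR.All
import Pool.Agent.helper83.GR.All
import Pool.Agent.helper58.DC.All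
import Pool.Agent.helper22.OB.All

/-!
# Project fi (MP_baa4d7_al), block F: assembly
-/

set_option autoImplicit false

namespace Pool.Agent.FI.AllC

open Pool.Agent.helper58.DC Pool.Agent.DI Pool.Agent.GR Pool.Agent.OB Pool.Agent.DR Pool.Agent.FI

theorem cFEQ : FEQ_stmt := Pool.Agent.FI.FEQ Pool.Agent.GR.All.dIF Pool.Agent.GR.All.dIM Pool.Agent.GR.All.dTI
theorem cFSI : FSI_stmt := Pool.Agent.FI.FSI
theorem cFBC : FBC_stmt := Pool.Agent.FI.FBC cFSI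
theorem cFNR : FNR_stmt := Pool.Agent.FI.FNR
theorem cFNO : FNO_stmt := Pool.Agent.FI.FNO cFNR Pool.Agent.DR.AllDI.iA3 Pool.Agent.DR.AllDI.iA5
theorem cFMX : FMX_stmt := Pool.Agent.FI.FMX
theorem cFTG : FTG_stmt := Pool.Agent.FI.FTG
theorem cFT0 : FT0_stmt := Pool.Agent.FI.FT0 Pool.Agent.GR.All.dCLA Pool.Agent.DR.AllDI.iA7 Pool.Agent.DR.AllDI.iA8 Pool.Agent.GR.All.dNM Pool.Agent.GR.All.dIF Pool.Agent.GR.All.dIM Pool.Agent.GR.All.dTI cFNO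
theorem cFCE : FCE_stmt := Pool.Agent.FI.FCE Pool.Agent.GR.All.dIRT Pool.Agent.DR.AllDI.iB9 Pool.Agent.DR.All.rCCJ Pool.Agent.DR.All.rCUQ
theorem cFCL : FCL_stmt := Pool.Agent.FI.FCL cFCE Pool.Agent.DR.All.rCFB Pool.Agent.DR.All.rCCJ Pool.Agent.GR.All.dIF
theorem cFCN : FCN_stmt := Pool.Agent.FI.FCN Pool.Agent.GR.All.dIF cFCL Pool.Agent.DR.All.rCFA Pool.Agent.DR.All.rCCJ
theorem cFOV : FOV_stmt := Pool.Agent.FI.FOV Pool.Agent.DR.AllDI.iC5a Pool.Agent.GR.All.dIM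
theorem cF12 : F12_stmt := Pool.Agent.FI.F12 Pool.Agent.GR.All.dIF cFCN cFCL cFOV Pool.Agent.DR.All.rCFA cFEQ
theorem cFCY : FCY_stmt := Pool.Agent.FI.FCY
theorem cFRA : FRA_stmt := Pool.Agent.FI.FRA cFEQ cFSI Pool.Agent.GR.All.dIF
theorem cFCP : FCP_stmt := Pool.Agent.FI.FCP cFRA Pool.Agent.GR.All.dIF
theorem cFNG : FNG_stmt := Pool.Agent.FI.FNG cFRA cFEQ cFSI Pool.Agent.GR.All.dIF
theorem cHTN : HTN_stmt := Pool.Agent.FI.HTN Pool.Agent.GR.All.dBR0 Pool.Agent.DR.AllDI.iB2 cFBC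
theorem cHTZ : HTZ_stmt := Pool.Agent.FI.HTZ cHTN Pool.Agent.DR.AllDI.iC3
theorem cTRX : TRX_stmt := Pool.Agent.FI.TRX Pool.Agent.DR.AllDI.iB2 Pool.Agent.GR.All.dCCI Pool.Agent.GR.All.dIDM Pool.Agent.GR.All.dEXP
theorem cKYH : KYH_stmt := Pool.Agent.FI.KYH Pool.Agent.GR.All.dKEY
theorem cEVC : EVC_stmt := Pool.Agent.FI.EVC Pool.Agent.DR.AllDI.iB2 Pool.Agent.GR.All.dGLP
theorem cEVD : EVD_stmt := Pool.Agent.FI.EVD Pool.Agent.DR.AllDI.iB2 Pool.Agent.DR.All.rCRE Pool.Agent.GR.All.dIDM Pool.Agent.GR.All.dSCH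
theorem cDOA : DOA_stmt := Pool.Agent.FI.DOA cKYH cTRX Pool.Agent.GR.All.dFCO Pool.Agent.GR.All.dIDM Pool.Agent.GR.All.dEIN Pool.Agent.GR.All.dCVF Pool.Agent.GR.All.dZER Pool.Agent.GR.All.dSFC cEVC Pool.Agent.DR.AllDI.iB2
theorem cDOB : DOB_stmt := Pool.Agent.FI.DOB cKYH cTRX Pool.Agent.GR.All.dIDM Pool.Agent.GR.All.dEIN Pool.Agent.GR.All.dCVF Pool.Agent.GR.All.dCCI Pool.Agent.GR.All.dEXP Pool.Agent.GR.All.dZER cFEQ cEVC
theorem cDOC : DOC_stmt := Pool.Agent.FI.DOC cKYH cTRX Pool.Agent.GR.All.dIDM Pool.Agent.GR.All.dEIN Pool.Agent.GR.All.dCVF Pool.Agent.GR.All.dSCH Pool.Agent.GR.All.dZER cEVC Pool.Agent.GR.All.dCCI Pool.Agent.GR.All.dEXP Pool.Agent.DR.AllDI.iB2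
theorem cDOR : DOR_stmt := Pool.Agent.FI.DOR cDOA cDOB cDOC cEVD cEVC cFBC cFEQ Pool.Agent.GR.All.dIF
theorem cBPL : BPL_stmt := Pool.Agent.FI.BPL
theorem cDDT : DDT_stmt := Pool.Agent.FI.DDT cFEQ cFSI cFRA
theorem cFIX : FIX_stmt := Pool.Agent.FI.FIX cDOR cBPL cDDT cFRA cFEQ
theorem cFSQ : FSQ_stmt := Pool.Agent.FI.FSQ cFIX cFCP cFRA cFEQ
theorem cFCQ : FCQ_stmt := Pool.Agent.FI.FCQ cFCP cHTZ cFEQ
theorem cFNC : FNC_stmt := Pool.Agent.FI.FNC cFMX cF12 cFCQ cFNG cFSQ cFEQ cFSI Pool.Agent.GR.All.dIF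
theorem cFFS : FFS_stmt := Pool.Agent.FI.FFS cFNC cFTG Pool.Agent.GR.All.dNM
theorem cFFF : FFF_stmt := Pool.Agent.FI.FFF cFT0 cFFS cFNC cFRA

end Pool.Agent.FI.AllC
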