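import Pool.Agent.helper22.FI.SpecA

/-!
# Row BRY of project fi (MP_baa4d7_al), block A1

Relative form of the second main theorem.
-/

set_option autoImplicit false

namespace Pool.Agent.FI

open Pool.Agent.helper58.DC Pool.Agent.DI Pool.Agent.GR Pool.Agent.OB

theorem BRY (hEQY : EQY_stmt) (hBLE : BLE_stmt) (hKYG : KYG_stmt) (hIDM : IDM_stmt) (hFCO : FCO_stmt)
    (hCVF : CVF_stmt) (hSFC : SFC_stmt) (hZER : ZER_stmt) : BRY_stmt := by
  intro p M hs G _ _ H y hy hpy θ v hv v' hv' hrv hrv'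
  obtain ⟨hassoc, hlin, -, -, hinv, hsupp, hcomm, -, -, -, hint, -⟩ := hCVF G
  have hinL : ∀ x : G, x ∈ Cz H y ↔ x ∈ H ∧ y * x = x * y := by
    intro x
    constructor
    · rintro ⟨h1, h2⟩
      refine ⟨h1, ?_⟩
      exact Subgroup.mem_centralizer_iff.1 h2 y rfl
    · rintro ⟨h1, h2⟩
      refine ⟨h1, Subgroup.mem_centralizer_iff.2 ?_⟩
      intro z hz
      rw [Set.mem_singleton_iff.1 hz]
      exact h2
  set L : Subgroup G := Cz H y with hL
  have hLH : L ≤ H := fun x hx => ((hinL x).1 hx).1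
  have hyL : y ∈ L := (hinL y).2 ⟨hy, rfl⟩
  set S : Set (G → ℂ) := Bl M H θ with hS
  set T : Set (G → ℂ) := Bq M H L θ with hT
  have hBS : BC M H S := by
    have h1 := (hBLE p M hs G H H le_rfl θ).1
    rw [(hBLE p M hs G H H le_rfl θ).2.2.2.2.2.2.2] at h1
    exact h1
  have hBT : BC M L T := (hBLE p M hs G H L hLH θ).1
  set e : G → ℂ := eS H S with he
  set f : G → ℂ := eS L T with hf
  have heI : ∀ x, IntAt M (e x) := by
    have h1 := (hBLE p M hs G H H le_rfl θ).2.2.1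
    rw [(hBLE p M hs G H H le_rfl θ).2.2.2.2.2.2.2] at h1
    exact h1
  have hfI : ∀ x, IntAt M (f x) := (hBLE p M hs G H L hLH θ).2.2.1
  obtain ⟨heC, -, hee, heS⟩ := hIDM G H S hBS.sub
  obtain ⟨hfC, -, hff, -⟩ := hIDM G L T hBT.sub
  change cv e e = e at hee
  change cv f f = f at hff
  change CF H e at heC
  change CF L f at hfC
  have hf0 : ∀ x, x ∉ H → f x = 0 := fun x hx => hfC.2 x fun h => hx (hLH h)
  have hef : cv e f = cv f e := hcomm H e f heC hf0
  set g : G → ℂ := cv e f with hg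
  have hgI : ∀ x, IntAt M (g x) := hint p M hs e f heI hfI
  have heg : cv e g = g := by rw [hg, ← hassoc, hee]
  have hge : cv g e = g := by rw [hef, hassoc, hee]
  have hfg : cv f g = g := by rw [hef, ← hassoc, hff]
  have hgf : cv g f = g := by rw [hg, hassoc, hff]
  have hgg : cv g g = g := by
    have h1 : cv g (cv e f) = cv (cv g e) f := (hassoc g e f).symm
    rw [hge, hgf] at h1
    exact h1
  have hg0 : ∀ x, x ∉ H → g x = 0 := hsupp H e f heC.2 hf0
  -- congruences on `L`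
  have hgl : ∀ l ∈ L, InM M (g l - f l) := by
    intro l hl
    have h1 : g l - f l = ∑ᶠ x, (e x - f x) * f (x⁻¹ * l) := by
      have h2 : f l = cv f f l := by rw [hff]
      have h3 : g l = ∑ᶠ x, e x * f (x⁻¹ * l) := rfl
      have h4 : cv f f l = ∑ᶠ x, f x * f (x⁻¹ * l) := rfl
      rw [h2, h3, h4, ← finsum_sub_distrib (Set.toFinite _) (Set.toFinite _)]
      refine finsum_congr fun x => ?_
      ring
    rw [h1]
    refine InM.finsum hs fun x => ?_
    by_cases hx : x ∈ L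
    · exact InM.mul_right hs (hEQY p M hs G H y hy hpy θ x hx) (hfI _)
    · have h2 : f (x⁻¹ * l) = 0 := by
        apply hfC.2
        intro h3
        apply hx
        have h4 := L.mul_mem hl (L.inv_mem h3)
        have h5 : l * (x⁻¹ * l)⁻¹ = x := by group
        rwa [h5] at h4
      rw [h2, mul_zero]
      exact InM.zero hs
  have hel : ∀ l ∈ L, InM M (e l - g l) := by
    intro l hl
    have h1 : e l - g l = (e l - f l) - (g l - f l) := by ring
    rw [h1]
    exact (hEQY p M hs G H y hy hpy θ l hl).sub hs (hgl l hl)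
  have hfl : ∀ l ∈ L, InM M (f l - g l) := by
    intro l hl
    have h1 : f l - g l = -(g l - f l) := by ring
    rw [h1]
    exact (hgl l hl).neg
  have hvc := ((hinL v).1 hv).2
  have hvc' := ((hinL v').1 hv').2
  have hbL : y * v' ∈ L := L.mul_mem hyL hv'
  have hz : ∀ z ∈ H, ∀ w ∈ H, z⁻¹ * y * z = y → w⁻¹ * y * w = y → z⁻¹ * w ∈ L := by
    intro z hz w hw h1 h2
    refine (hinL _).2 ⟨H.mul_mem (H.inv_mem hz) hw, ?_⟩
    have h3 : y * z = z * y := by
      have := congrArg (fun x => z * x) h1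
      simpa [mul_assoc] using this
    have h4 : y * w = w * y := by
      have := congrArg (fun x => w * x) h2
      simpa [mul_assoc] using this
    have h5 : z⁻¹ * y = y * z⁻¹ := by
      rw [inv_mul_eq_iff_eq_mul, ← mul_assoc, ← h3, mul_inv_cancel_right]
    rw [← mul_assoc, ← h5, mul_assoc, h4, mul_assoc]
  have hinvg : ∀ x, g ((y * v') * x * (y * v')⁻¹) = g x := by
    intro x
    exact hinv (y * v') e f (heC.1 _ (hLH hbL)) (hfC.1 _ hbL) x
  have K1 := hKYG p M hs G H (e - g)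
    (fun x hx => by simp only [Pi.sub_apply]; rw [heC.2 x hx, hg0 x hx, sub_zero])
    (fun x => (heI x).sub hs (hgI x))
    (by
      obtain ⟨-, -, h1, -⟩ := hlin e g (e - g)
      obtain ⟨-, -, -, h2⟩ := hlin e e g
      obtain ⟨-, -, -, h3⟩ := hlin g e g
      rw [h1, h2, h3, hee, heg, hge, hgg]
      simp)
    y hy v (hLH hv) y hy v' (hLH hv') hpy hpy hrv hrv' hvc hvc'
    (fun x => by
      simp only [Pi.sub_apply]
      rw [hinvg, heC.1 _ (hLH hbL)])
    (fun z hzH w hwH h1 h2 => hel _ (hz z hzH w hwH h1 h2))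
  have K2 := hKYG p M hs G H (f - g)
    (fun x hx => by simp only [Pi.sub_apply]; rw [hf0 x hx, hg0 x hx, sub_zero])
    (fun x => (hfI x).sub hs (hgI x))
    (by
      obtain ⟨-, -, h1, -⟩ := hlin f g (f - g)
      obtain ⟨-, -, -, h2⟩ := hlin f f g
      obtain ⟨-, -, -, h3⟩ := hlin g f g
      rw [h1, h2, h3, hff, hfg, hgf, hgg]
      simp)
    y hy v (hLH hv) y hy v' (hLH hv') hpy hpy hrv hrv' hvc hvc'
    (fun x => by
      simp only [Pi.sub_apply]
      rw [hinvg, hfC.1 _ hbL])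
    (fun z hzH w hwH h1 h2 => hfl _ (hz z hzH w hwH h1 h2))
  have hsum : ∀ F : G → ℂ, (∑ᶠ z ∈ (H : Set G), F z) =
      ∑ z ∈ (Set.toFinite (H : Set G)).toFinset, F z := fun F =>
    finsum_mem_eq_finite_toFinset_sum _ (Set.toFinite _)
  have hE : ∑ᶠ z ∈ (H : Set G), e (z⁻¹ * (y * v)⁻¹ * z * (y * v')) = Sf S (y * v) (y * v') :=
    heS (y * v) (H.mul_mem hy (hLH hv)) (y * v') (H.mul_mem hy (hLH hv'))
  have hF : ∑ᶠ z ∈ (H : Set G), f (z⁻¹ * (y * v)⁻¹ * z * (y * v')) = Sf T (y * v) (y * v') :=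
    hFCO p M hs G H y hy hpy T hBT v hv v' hv' hrv hrv'
  have hdiff : Sf S (y * v) (y * v') - Sf T (y * v) (y * v') =
      (∑ᶠ z ∈ (H : Set G), (e - g) (z⁻¹ * (y * v)⁻¹ * z * (y * v'))) -
      ∑ᶠ z ∈ (H : Set G), (f - g) (z⁻¹ * (y * v)⁻¹ * z * (y * v')) := by
    rw [← hE, ← hF, hsum, hsum, hsum, hsum, ← Finset.sum_sub_distrib, ← Finset.sum_sub_distrib]
    refine Finset.sum_congr rfl fun z _ => ?_
    simp only [Pi.sub_apply]
    ring
  have hzero : Sf S (y * v) (y * v') - Sf T (y * v) (y * v') = 0 := by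
    apply hZER p M hs
    · exact ((hSFC G H S hBS.sub).2.1 _ _).sub ((hSFC G L T hBT.sub).2.1 _ _)
    · intro r
      rw [hdiff]
      exact (K1 r).sub hs (K2 r)
  rw [sub_eq_zero.1 hzero]
  exact (hSFC G L T hBT.sub).2.2 y hyL (fun h hh => ((hinL h).1 hh).2) v hv v' hv'

end Pool.Agent.FI
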