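import Pool.Agent.helper12.FI.SpecQ
import Pool.Agent.helper59.FI.SpecB2

/-!
# LO0 of project fi (MP_baa4d7_al): the local data from the blocks A1, A2
-/

set_option autoImplicit false

namespace Pool.Agent.FI

open Pool.Agent.helper58.DC Pool.Agent.DI Pool.Agent.GR Pool.Agent.OB Pool.Agent.DR

theorem LO0 (hCON : CON_stmt) (hCNJ : CNJ_stmt) (hDFL : DFL_stmt) (hBET : BET_stmt)
    (hEQY : EQY_stmt) (hFCY : FCY_stmt) : LO0_stmt := by
  intro p M hs G _ _ D x θ χ hrt hfree hnb hab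
  have hD : IsPGroup p D := hrt.dfa.pgrp
  have hDcz : D ≤ cz D := le_cz_of_com hrt.com
  refine
    { rt := hrt
      free := hfree
      nb := hnb
      cyc := ?_
      bet := hBET p M hs G D x θ χ hrt
      con := ?_
      cnj := ?_
      dfl := ?_
      eqr := ?_ }
  · refine hFCY G D (cz D) (TT M D θ) hnb hrt.com cz_le_TT (fun t ht => ht.1) ?_ hab hfree
    intro c hc d hd
    exact (Subgroup.mem_centralizer_iff.1 hc d hd).symm
  · intro Q hQ ψ hψ hi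
    obtain ⟨g, h1, h2⟩ := hCON p M hs G D x θ χ hrt Q hQ ψ hψ hi
    exact ⟨g, h1, h2⟩
  · intro P hP ψ hψ h D₁ hD₁ hPD₁ hc θ₁ hθ₁ h1
    obtain ⟨l, hl, h2, h3⟩ := hCNJ p M hs G D x θ χ hrt P hP ψ hψ h D₁ hD₁ hPD₁ hc θ₁ hθ₁ h1
    exact ⟨l, hl, h2, h3⟩
  · intro P hP ψ hψ h
    obtain ⟨x', hx', -, h1⟩ := hDFL p M hs G D x θ χ hrt P hP ψ hψ h
    exact ⟨x', hx', h1⟩
  · intro P hP y hy hpy z hz
    exact hEQY p M hs G (cz P) y hy hpy θ z hz

end Pool.Agent.FI
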