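import Pool.Agent.helper22.FI.SpecA

/-!
# Row TRN of project fi (MP_baa4d7_al), block A1

Transitivity of `SB`.
-/

set_option autoImplicit false

namespace Pool.Agent.FI

open Pool.Agent.helper58.DC Pool.Agent.DI Pool.Agent.GR Pool.Agent.OB

theorem TRN_cc {G : Type} [Group G] {H : Subgroup G} {η z : G → ℂ} (hη : ∀ x, x ∉ H → η x = 0) :
    cc η (rsH H z) = cc η z := by
  unfold cc
  congr 1
  refine finsum_congr fun x => ?_
  by_cases hx : x ∈ H
  · unfold rsH
    rw [if_pos hx]
  · rw [hη x hx, mul_zero, mul_zero]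

theorem TRN : TRN_stmt := by
  intro G _ M H L hHL η ψ φ hη hψ h
  have h1 : SB M L η ψ := by
    intro z hz hi
    have h2 : CF H (rsH H z) := by
      refine ⟨fun l hl x => ?_, fun x hx => ?_⟩
      · unfold rsH
        by_cases hx : x ∈ H
        · have h3 : l * x * l⁻¹ ∈ H := H.mul_mem (H.mul_mem hl hx) (H.inv_mem hl)
          rw [if_pos hx, if_pos h3]
          exact hz.1 l (hHL hl) x
        · have h3 : l * x * l⁻¹ ∉ H := by
            intro h4
            apply hx
            have h5 : l⁻¹ * (l * x * l⁻¹) * l ∈ H := H.mul_mem (H.mul_mem (H.inv_mem hl) h4) hl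
            have h6 : l⁻¹ * (l * x * l⁻¹) * l = x := by group
            rwa [h6] at h5
          rw [if_neg hx, if_neg h3]
      · unfold rsH
        rw [if_neg hx]
    have h7 := h (rsH H z) h2 (fun x => by
      unfold rsH
      by_cases hx : x ∈ H
      · rw [if_pos hx]
        exact hi x
      · rw [if_neg hx]
        exact isIntegral_zero)
    rwa [TRN_cc hη, TRN_cc hψ] at h7
  exact ⟨h1, fun h2 => h1.trans h2, fun h2 => h1.symm.trans h2⟩

end Pool.Agent.FI
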